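import Pool.Agent.Helper21.CW.SPC
import Pool.Agent.Helper12.CW.NFB
import Pool.Agent.Helper12.CX.THR

/-!
Spectral data of the rotation block: existence of the double eigenvalue direction and sign of the
derivative of the hyperbolic part (MP_c75db0, row NB4).
-/

set_option autoImplicit false
noncomputable section
namespace Pool.Agent.Helper21.NB

open Matrix
open Pool.Agent.Helper6.MONO.W2
open Pool.Agent.Helper6.MONO

/-! ### real data -/

/-- the data: `μ = C + i s`, `T = 2 h μ - conj μ ^ 2` -/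
structure SPR (Tr Ti C s h : ℝ) : Prop where
  s0 : 0 < s
  one : s ^ 2 + C ^ 2 = 1
  C0 : 0 < C
  C1 : C < 1 / 2
  h1 : 1 ≤ h
  re : Tr = 2 * h * C - 2 * C ^ 2 + 1
  im : Ti = 2 * s * (h + C)

/-- the discriminant -/
theorem disc_hC {S K x C h : ℝ} (hTi : K ^ 2 * (1 - x ^ 2 / 4) = 4 * (1 - C ^ 2) * (h + C) ^ 2)
    (hTr : S + K * x / 2 = 2 * h * C - 2 * C ^ 2 + 1) :
    fBx S K x = 16 * (h ^ 2 - 1) * (h + 4 * C ^ 3 - 3 * C) ^ 2 := by
  have e : fBx S K x = ((S + K * x / 2) ^ 2 + K ^ 2 * (1 - x ^ 2 / 4)) ^ 2 +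
      8 * ((S + K * x / 2) ^ 3 - 3 * (S + K * x / 2) * (K ^ 2 * (1 - x ^ 2 / 4))) +
      18 * ((S + K * x / 2) ^ 2 + K ^ 2 * (1 - x ^ 2 / 4)) - 27 := by
    unfold fBx
    ring
  rw [e, hTi, hTr]
  ring

/-- EXISTENCE -/
theorem spr_exists {S K x : ℝ} (hK : 0 < K) (_h1 : -2 < x) (_h2 : x < 2)
    (hT1 : 1 < S + K * x / 2) (hT3 : 3 * (S + K * x / 2) ^ 2 < K ^ 2 * (1 - x ^ 2 / 4))
    (hf : 0 ≤ fBx S K x) :
    ∃ C s h : ℝ, SPR (S + K * x / 2) (K * Real.sqrt (1 - (x / 2) ^ 2)) C s h := by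
  set Tr := S + K * x / 2 with hTr
  set Ti := K * Real.sqrt (1 - (x / 2) ^ 2) with hTi
  have hx : 0 < 1 - (x / 2) ^ 2 := by nlinarith
  have hTi0 : 0 < Ti := mul_pos hK (Real.sqrt_pos.2 hx)
  have hTi2 : Ti ^ 2 = K ^ 2 * (1 - x ^ 2 / 4) := by
    rw [hTi, mul_pow, Real.sq_sqrt hx.le]
    ring
  rw [← hTi2] at hT3
  have hT13 : Real.sqrt 3 * Tr < Ti := by
    have h3 : Real.sqrt 3 ^ 2 = 3 := Real.sq_sqrt (by norm_num)
    have h30 : 0 ≤ Real.sqrt 3 := Real.sqrt_nonneg 3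
    by_contra hc
    push Not at hc
    have h5 : Ti ^ 2 ≤ (Real.sqrt 3 * Tr) ^ 2 := pow_le_pow_left₀ hTi0.le hc 2
    have h6 : (Real.sqrt 3 * Tr) ^ 2 = 3 * Tr ^ 2 := by rw [mul_pow (Real.sqrt 3), h3]
    linarith
  -- the function
  set G : ℝ → ℝ := fun θ => Real.cos θ * Ti + Real.sin θ * (1 - Tr - 4 * Real.cos θ ^ 2) with hG
  have cG : Continuous G := by
    rw [hG]
    exact (Real.continuous_cos.mul continuous_const).add (Real.continuous_sin.mul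
      ((continuous_const.sub continuous_const).sub (continuous_const.mul
        (Real.continuous_cos.pow 2))))
  have g0 : 0 < G (Real.pi / 3) := by
    rw [hG]
    show 0 < Real.cos (Real.pi / 3) * Ti + Real.sin (Real.pi / 3) *
      (1 - Tr - 4 * Real.cos (Real.pi / 3) ^ 2)
    rw [Real.cos_pi_div_three, Real.sin_pi_div_three]
    linarith
  have g1 : G (Real.pi / 2) < 0 := by
    rw [hG]
    show Real.cos (Real.pi / 2) * Ti + Real.sin (Real.pi / 2) *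
      (1 - Tr - 4 * Real.cos (Real.pi / 2) ^ 2) < 0
    rw [Real.cos_pi_div_two, Real.sin_pi_div_two]
    linarith
  have hpi := Real.pi_pos
  obtain ⟨θ, ⟨t1, t2⟩, hθ⟩ := intermediate_value_Icc' (show Real.pi / 3 ≤ Real.pi / 2 by linarith)
    cG.continuousOn (show (0 : ℝ) ∈ Set.Icc (G (Real.pi / 2)) (G (Real.pi / 3)) from
      ⟨g1.le, g0.le⟩)
  have t1' : Real.pi / 3 < θ := lt_of_le_of_ne t1 (fun e => by rw [e, hθ] at g0; exact lt_irrefl _ g0)
  have t2' : θ < Real.pi / 2 := lt_of_le_of_ne t2 (fun e => by rw [← e, hθ] at g1; exact lt_irrefl _ g1)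
  have hs0 : 0 < Real.sin θ := Real.sin_pos_of_pos_of_lt_pi (by linarith) (by linarith)
  have hC0 : 0 < Real.cos θ := Real.cos_pos_of_mem_Ioo ⟨by linarith, t2'⟩
  have hC1 : Real.cos θ < 1 / 2 := by
    rw [← Real.cos_pi_div_three]
    exact Real.cos_lt_cos_of_nonneg_of_le_pi (by linarith) (by linarith) t1'
  have hsc := Real.sin_sq_add_cos_sq θ
  have hθ' : Real.cos θ * Ti + Real.sin θ * (1 - Tr - 4 * Real.cos θ ^ 2) = 0 := hθ
  generalize Real.cos θ = C at *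
  generalize Real.sin θ = s at *
  have hs' : s ≠ 0 := hs0.ne'
  have him : Ti = 2 * s * (Ti / (2 * s) - C + C) := by
    field_simp
    ring
  have hre : Tr = 2 * (Ti / (2 * s) - C) * C - 2 * C ^ 2 + 1 := by
    field_simp
    linarith
  have hh1 : 1 ≤ Ti / (2 * s) - C := by
    set h := Ti / (2 * s) - C with hh
    have hi2 : Ti ^ 2 = 4 * (1 - C ^ 2) * (h + C) ^ 2 := by
      rw [him]
      have : s ^ 2 = 1 - C ^ 2 := by linarith
      calc (2 * s * (h + C)) ^ 2 = 4 * s ^ 2 * (h + C) ^ 2 := by ring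
        _ = _ := by rw [this]
    have hd : 0 ≤ 16 * (h ^ 2 - 1) * (h + 4 * C ^ 3 - 3 * C) ^ 2 := by
      rw [← disc_hC (S := S) (K := K) (x := x) (by rw [← hTi2, hi2]) hre]
      exact hf
    have hm : -1 < h := by
      have : 0 < h + C := by
        have e : Ti / (2 * s) = h + C := by rw [hh]; ring
        rw [← e]
        positivity
      linarith
    by_contra hc
    push Not at hc
    have hsq : h ^ 2 - 1 < 0 := by
      have e7 : h ^ 2 - 1 = (h - 1) * (h + 1) := by ring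
      rw [e7]
      exact mul_neg_of_neg_of_pos (by linarith) (by linarith)
    have hz : (h + 4 * C ^ 3 - 3 * C) ^ 2 = 0 := by
      refine le_antisymm ?_ (sq_nonneg _)
      by_contra hX
      push Not at hX
      have := mul_neg_of_neg_of_pos (show 16 * (h ^ 2 - 1) < 0 by linarith) hX
      linarith
    have hz2 : h = 3 * C - 4 * C ^ 3 := by
      have := pow_eq_zero_iff (two_ne_zero) |>.1 hz
      linarith
    rw [hi2, hre, hz2] at hT3
    have e5 : 3 * (2 * (3 * C - 4 * C ^ 3) * C - 2 * C ^ 2 + 1) ^ 2 -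
        4 * (1 - C ^ 2) * (3 * C - 4 * C ^ 3 + C) ^ 2 = (1 - 4 * C ^ 2) ^ 3 * (3 - 4 * C ^ 2) := by
      ring
    have p1 : 0 < 1 - 4 * C ^ 2 := by
      have e8 : 1 - 4 * C ^ 2 = (1 - 2 * C) * (1 + 2 * C) := by ring
      rw [e8]
      exact mul_pos (by linarith) (by linarith)
    have p2 : 0 < (1 - 4 * C ^ 2) ^ 3 * (3 - 4 * C ^ 2) := mul_pos (pow_pos p1 3) (by linarith)
    linarith
  exact ⟨C, s, Ti / (2 * s) - C, hs0, hsc, hC0, hC1, hh1, hre, him⟩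

namespace SPR

variable {Tr Ti C s h : ℝ} (H : SPR Tr Ti C s h)
include H

theorem hC : 0 < h + C := by linarith [H.h1, H.C0]

theorem den : 0 < h + 4 * C ^ 3 - 3 * C := by
  have h1 := H.h1
  have h2 := H.C0
  have h3 := H.C1
  have e : h + 4 * C ^ 3 - 3 * C = (h - 1) + (1 - 2 * C) ^ 2 * (1 + C) := by ring
  have h4 : 0 < (1 - 2 * C) ^ 2 * (1 + C) := mul_pos (pow_pos (by linarith) 2) (by linarith)
  rw [e]
  linarith

end SPR

/-- `μ` -/
def muC (C s : ℝ) : ℂ := ⟨C, s⟩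

theorem muC_mul {C s : ℝ} (h : s ^ 2 + C ^ 2 = 1) : muC C s * star (muC C s) = 1 := by
  apply Complex.ext
  · simp [muC]
    nlinarith
  · simp [muC]
    ring

/-- derivative of the argument, `T' = (a, b)` -/
def thC (C s h a b : ℝ) : ℝ := (b * C - a * s) / (2 * (h + 4 * C ^ 3 - 3 * C))
/-- derivative of `h` -/
def hdC (C s h a b : ℝ) : ℝ := (a * C + b * s) / 2 - thC C s h a b * (s * (4 * C ^ 2 - 1))

/-- the derivative of the trace -/
theorem td_eq {C s h a b : ℝ} (h1 : s ^ 2 + C ^ 2 = 1) (hd : h + 4 * C ^ 3 - 3 * C ≠ 0) :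
    (⟨a, b⟩ : ℂ) = 2 * (Complex.I * (thC C s h a b : ℂ) * muC C s) * (h : ℂ) +
      2 * muC C s * (hdC C s h a b : ℂ) +
      2 * (Complex.I * (thC C s h a b : ℂ) * star (muC C s) ^ 2) := by
  have e : thC C s h a b * (2 * (h + 4 * C ^ 3 - 3 * C)) = b * C - a * s := by
    unfold thC
    exact div_mul_cancel₀ _ (mul_ne_zero two_ne_zero hd)
  have e2 : hdC C s h a b = (a * C + b * s) / 2 - thC C s h a b * (s * (4 * C ^ 2 - 1)) := rfl
  generalize thC C s h a b = t at *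
  generalize hdC C s h a b = d at *
  have hC : C ^ 2 = 1 - s ^ 2 := by linarith
  apply Complex.ext
  · simp [muC, pow_two]
    rw [e2]
    have k1 : C ^ 3 = C * (1 - s ^ 2) := by rw [← hC]; ring
    rw [k1] at e
    rw [hC]
    linear_combination (a * (-1)) * h1 + s * e
  · simp [muC, pow_two]
    rw [e2]
    have k1 : C ^ 3 = C * (1 - s ^ 2) := by rw [← hC]; ring
    rw [k1] at e
    rw [hC]
    linear_combination (-b - 8 * t * s ^ 2) * h1 - C * e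

/-- SIGN OF THE DERIVATIVE -/
theorem hd_pos {Tr Ti C s h S a b : ℝ} (H : SPR Tr Ti C s h) (hS : 6 < S) (ha : 0 < a)
    (hb : Ti * b = -(Tr - S) * a) : 0 < hdC C s h a b := by
  have hd := H.den
  have hC := H.hC
  have h0 := H.C0
  have h1 := H.C1
  have h2 := H.h1
  have e1 : 4 * (h + 4 * C ^ 3 - 3 * C) * hdC C s h a b =
      a * (2 * C * h + 4 * C ^ 2 - 2) + 2 * s * b * (h - 2 * C) := by
    have e : thC C s h a b * (2 * (h + 4 * C ^ 3 - 3 * C)) = b * C - a * s := by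
      unfold thC
      exact div_mul_cancel₀ _ (mul_ne_zero two_ne_zero hd.ne')
    unfold hdC
    generalize thC C s h a b = t at *
    have hs2 : s ^ 2 = 1 - C ^ 2 := by linarith [H.one]
    linear_combination (-2 * s * (4 * C ^ 2 - 1)) * e + 2 * a * (4 * C ^ 2 - 1) * hs2
  have e2 : (h + C) * (4 * (h + 4 * C ^ 3 - 3 * C) * hdC C s h a b) =
      a * (h * (12 * C ^ 2 + S - 3) - 2 * C * S) := by
    rw [e1]
    have e3 : 2 * s * (h + C) * b = -(Tr - S) * a := by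
      rw [← H.im]
      exact hb
    rw [H.re] at e3
    linear_combination (h - 2 * C) * e3
  have hpos : 0 < h * (12 * C ^ 2 + S - 3) - 2 * C * S := by
    have k1 : 0 < 12 * C ^ 2 + S - 3 := by
      have := sq_nonneg C
      linarith
    have k2 : 0 < (2 * C - 1) * (6 * C + 3 - S) := mul_pos_of_neg_of_neg (by linarith) (by linarith)
    have k4 : (2 * C - 1) * (6 * C + 3 - S) = 12 * C ^ 2 + S - 3 - 2 * C * S := by ring
    have k3 : 12 * C ^ 2 + S - 3 ≤ h * (12 * C ^ 2 + S - 3) := le_mul_of_one_le_left k1.le h2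
    linarith
  have h3 : 0 < (h + C) * (4 * (h + 4 * C ^ 3 - 3 * C)) := by positivity
  by_contra hc
  push Not at hc
  have h4 : (h + C) * (4 * (h + 4 * C ^ 3 - 3 * C) * hdC C s h a b) ≤ 0 := by
    have : (h + C) * (4 * (h + 4 * C ^ 3 - 3 * C) * hdC C s h a b) =
      ((h + C) * (4 * (h + 4 * C ^ 3 - 3 * C))) * hdC C s h a b := by ring
    rw [this]
    exact mul_nonpos_of_nonneg_of_nonpos h3.le hc
  rw [e2] at h4
  have := mul_pos ha hpos
  linarith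

/-- the inverse of the denominator and its derivative -/
def gC (C s h : ℝ) : ℂ := muC C s * ((1 / (2 * (h + 4 * C ^ 3 - 3 * C)) : ℝ) : ℂ)
def gdC (C s h th hd : ℝ) : ℂ := gC C s h * (Complex.I * (th : ℂ) -
  (((hd - 3 * th * (s * (4 * C ^ 2 - 1))) / (h + 4 * C ^ 3 - 3 * C) : ℝ) : ℂ))

theorem g_ok {C s h th hd : ℝ} (h1 : s ^ 2 + C ^ 2 = 1) (hd0 : h + 4 * C ^ 3 - 3 * C ≠ 0) :
    (star (muC C s) ^ 4 + 2 * star (muC C s) * (h : ℂ) + muC C s ^ 2) * gC C s h = 1 ∧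
    (star (muC C s) ^ 4 + 2 * star (muC C s) * (h : ℂ) + muC C s ^ 2) * gdC C s h th hd +
      (-(4 * (Complex.I * (th : ℂ)) * star (muC C s) ^ 4) -
        2 * (Complex.I * (th : ℂ)) * star (muC C s) * (h : ℂ) +
        2 * star (muC C s) * (hd : ℂ) + 2 * (Complex.I * (th : ℂ)) * muC C s ^ 2) * gC C s h = 0 := by
  have hm := muC_mul h1
  have e3 : muC C s ^ 3 + star (muC C s) ^ 3 = ((2 * (4 * C ^ 3 - 3 * C) : ℝ) : ℂ) := by
    have : muC C s + star (muC C s) = ((2 * C : ℝ) : ℂ) := by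
      apply Complex.ext
      · simp [muC]
        ring
      · simp [muC]
    have e4 : muC C s ^ 3 + star (muC C s) ^ 3 = (muC C s + star (muC C s)) ^ 3 -
        3 * (muC C s + star (muC C s)) := by
      linear_combination (-3 * (muC C s + star (muC C s))) * hm
    rw [e4, this]
    push_cast
    ring
  have e3' : muC C s ^ 3 - star (muC C s) ^ 3 =
      2 * Complex.I * ((s * (4 * C ^ 2 - 1) : ℝ) : ℂ) := by
    have a1 : muC C s - star (muC C s) = 2 * Complex.I * ((s : ℝ) : ℂ) := by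
      apply Complex.ext
      · simp [muC]
      · simp [muC]
        ring
    have a2 : muC C s + star (muC C s) = ((2 * C : ℝ) : ℂ) := by
      apply Complex.ext
      · simp [muC]
        ring
      · simp [muC]
    have e4 : muC C s ^ 3 - star (muC C s) ^ 3 = (muC C s - star (muC C s)) *
        ((muC C s + star (muC C s)) ^ 2 - 1) := by
      linear_combination (-(muC C s - star (muC C s))) * hm
    rw [e4, a1, a2]
    push_cast
    ring
  have hD : ((h + 4 * C ^ 3 - 3 * C : ℝ) : ℂ) ≠ 0 := by exact_mod_cast hd0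
  have q1 : star (muC C s) ^ 4 + 2 * star (muC C s) * (h : ℂ) + muC C s ^ 2 =
      star (muC C s) * (2 * ((h + 4 * C ^ 3 - 3 * C : ℝ) : ℂ)) := by
    have : star (muC C s) ^ 4 + 2 * star (muC C s) * (h : ℂ) + muC C s ^ 2 =
        star (muC C s) * (2 * (h : ℂ) + (muC C s ^ 3 + star (muC C s) ^ 3)) := by
      linear_combination (-(muC C s ^ 2)) * hm
    rw [this, e3]
    push_cast
    ring
  have q2 : gC C s h * (2 * ((h + 4 * C ^ 3 - 3 * C : ℝ) : ℂ)) = muC C s := by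
    have e5 : ((1 / (2 * (h + 4 * C ^ 3 - 3 * C)) : ℝ) : ℂ) *
        (2 * ((h + 4 * C ^ 3 - 3 * C : ℝ) : ℂ)) = 1 := by
      have e6 : (1 / (2 * (h + 4 * C ^ 3 - 3 * C))) * (2 * (h + 4 * C ^ 3 - 3 * C)) = 1 :=
        div_mul_cancel₀ _ (mul_ne_zero two_ne_zero hd0)
      have e7 := congrArg (fun r : ℝ => (r : ℂ)) e6
      simpa using e7
    unfold gC
    rw [mul_assoc, e5, mul_one]
  have g1 : (star (muC C s) ^ 4 + 2 * star (muC C s) * (h : ℂ) + muC C s ^ 2) * gC C s h = 1 := by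
    rw [q1]
    linear_combination star (muC C s) * q2 + hm
  refine ⟨g1, ?_⟩
  unfold gdC
  have q3 : (((hd - 3 * th * (s * (4 * C ^ 2 - 1))) / (h + 4 * C ^ 3 - 3 * C) : ℝ) : ℂ) *
      ((h + 4 * C ^ 3 - 3 * C : ℝ) : ℂ) = (hd : ℂ) - 3 * (th : ℂ) *
        ((s * (4 * C ^ 2 - 1) : ℝ) : ℂ) := by
    rw [← Complex.ofReal_mul, div_mul_cancel₀ _ hd0]
    push_cast
    ring
  generalize (((hd - 3 * th * (s * (4 * C ^ 2 - 1))) / (h + 4 * C ^ 3 - 3 * C) : ℝ) : ℂ) = Y at *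
  have hI : Complex.I * Complex.I = -1 := Complex.I_mul_I
  -- the derivative of the denominator
  have q4 : -(4 * (Complex.I * (th : ℂ)) * star (muC C s) ^ 4) -
        2 * (Complex.I * (th : ℂ)) * star (muC C s) * (h : ℂ) +
        2 * star (muC C s) * (hd : ℂ) + 2 * (Complex.I * (th : ℂ)) * muC C s ^ 2 =
      star (muC C s) * (2 * ((h + 4 * C ^ 3 - 3 * C : ℝ) : ℂ)) * (Y - Complex.I * (th : ℂ)) := by
    have a1 : star (muC C s) * (2 * ((h + 4 * C ^ 3 - 3 * C : ℝ) : ℂ)) * (Y - Complex.I * (th : ℂ)) =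
        2 * star (muC C s) * (Y * ((h + 4 * C ^ 3 - 3 * C : ℝ) : ℂ)) -
        (star (muC C s) * (2 * ((h + 4 * C ^ 3 - 3 * C : ℝ) : ℂ))) * (Complex.I * (th : ℂ)) := by
      ring
    rw [a1, q3, ← q1]
    have a2 : ((s * (4 * C ^ 2 - 1) : ℝ) : ℂ) = -(Complex.I / 2) *
        (muC C s ^ 3 - star (muC C s) ^ 3) := by
      rw [e3']
      linear_combination (((s * (4 * C ^ 2 - 1) : ℝ) : ℂ)) * hI
    rw [a2]
    linear_combination (-3 * Complex.I * (th : ℂ) * muC C s ^ 2) * hm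
  rw [q4]
  have g1' := g1
  rw [q1] at g1' ⊢
  ring

/-- the trace of the block -/
theorem tr_rB (p : ℕ) (v : V3) : (rB p v).trace = ep (phi p) ^ 2 * (1 - v 0 * star (v 0)) +
    star (ep (phi p)) ^ 2 * (1 - v 1 * star (v 1)) + (1 + v 2 * star (v 2)) := by
  unfold rB
  rw [sDm_diag]
  simp [rfJ, Matrix.trace, Fin.sum_univ_three]
  ring

theorem tr_rBd (p : ℕ) (v vd : V3) : (rBd p v vd).trace =
    -(ep (phi p) ^ 2 * (vd 0 * star (v 0) + v 0 * star (vd 0))) -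
    star (ep (phi p)) ^ 2 * (vd 1 * star (v 1) + v 1 * star (vd 1)) +
      (vd 2 * star (v 2) + v 2 * star (vd 2)) := by
  unfold rBd
  rw [sDm_diag]
  simp [rfd, Matrix.trace, Fin.sum_univ_three]
  ring

/-! ### the point -/

/-- `S = κ_p² + κ_q² + κ_r² - 3`, `K = κ_p κ_q κ_r` -/
def SN (p q r : ℕ) : ℝ := Kp p ^ 2 + Kp q ^ 2 + Kp r ^ 2 - 3
def KN (p q r : ℕ) : ℝ := Kp p * Kp q * Kp r

theorem Kp_sin (p : ℕ) : Kp p ^ 2 = 4 - 4 * Real.sin (phi p) ^ 2 := by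
  have := four_sub p
  linarith

theorem ep_sq (p : ℕ) : ep (phi p) ^ 2 = ⟨Kp p ^ 2 / 2 - 1, Kp p * Real.sin (phi p)⟩ := by
  have e : Kp p = 2 * Real.cos (phi p) := rfl
  have h := Real.sin_sq_add_cos_sq (phi p)
  apply Complex.ext
  · simp [ep, pow_two, e]
    nlinarith
  · simp [ep, pow_two, e]
    ring

/-- the trace and its derivative -/
theorem tr_pt {p q r : ℕ} (hp : 3 ≤ p) (hq : 3 ≤ q) (hr : 3 ≤ r) {x : ℝ} (h1 : -2 < x) (h2 : x < 2)
    (ht : 0 < tt (phi p) (Kp q) (Kp r) x) :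
    (rB p (vC p (cW p q r x) (Kp q ^ 2) (Kp r ^ 2))).trace =
      ⟨SN p q r + KN p q r * x / 2, KN p q r * Real.sqrt (1 - (x / 2) ^ 2)⟩ ∧
    ∃ b : ℝ, (rBd p (vC p (cW p q r x) (Kp q ^ 2) (Kp r ^ 2))
        (wC p (cW p q r x) (Kp q ^ 2) (Kp r ^ 2))).trace = ⟨2 * Real.sin (phi p) ^ 2, b⟩ ∧
      KN p q r * Real.sqrt (1 - (x / 2) ^ 2) * b =
        -(SN p q r + KN p q r * x / 2 - SN p q r) * (2 * Real.sin (phi p) ^ 2) := by
  obtain ⟨hR', hR2⟩ := cS_pos hp hq hr h1 h2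
  have hW : 2 < cW p q r x := by
    unfold cW
    linarith
  have hRe := cS_R hp hq hr h1.le h2.le
  have hWe := cS_W hp hq hr h1.le h2.le
  have two := vC_two hR2 hW.le
  have tan := vC_tan hR2 hW
  obtain ⟨hc, hs⟩ := kp_cos hp
  have e0 : Kp p = 2 * Real.cos (phi p) := rfl
  have hks := Kp_sin p
  set W := cW p q r x with hWd
  have hB0 : 0 < (W + cR p W (Kp q ^ 2) (Kp r ^ 2)) / 2 := by linarith
  have hBB : cB p W (Kp q ^ 2) (Kp r ^ 2) ^ 2 = (W + cR p W (Kp q ^ 2) (Kp r ^ 2)) / 2 :=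
    Real.sq_sqrt hB0.le
  have hB' : 0 < cB p W (Kp q ^ 2) (Kp r ^ 2) := Real.sqrt_pos.2 hB0
  have hT2 : Real.sqrt (W - 2) ^ 2 = W - 2 := Real.sq_sqrt (by linarith)
  have hT0 : 0 < Real.sqrt (W - 2) := Real.sqrt_pos.2 (by linarith)
  have kc : ∀ t : ℝ, star (t : ℂ) = (t : ℂ) := fun t => Complex.conj_ofReal t
  have v1 : vC p W (Kp q ^ 2) (Kp r ^ 2) 1 = ((cB p W (Kp q ^ 2) (Kp r ^ 2) : ℝ) : ℂ) := rfl
  have v2 : vC p W (Kp q ^ 2) (Kp r ^ 2) 2 = ((Real.sqrt (W - 2) : ℝ) : ℂ) := rfl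
  have w1 : wC p W (Kp q ^ 2) (Kp r ^ 2) 1 = ((cBd p W (Kp q ^ 2) (Kp r ^ 2) : ℝ) : ℂ) := rfl
  have w2 : wC p W (Kp q ^ 2) (Kp r ^ 2) 2 = ((1 / (2 * Real.sqrt (W - 2)) : ℝ) : ℂ) := rfl
  have n1 : vC p W (Kp q ^ 2) (Kp r ^ 2) 1 * star (vC p W (Kp q ^ 2) (Kp r ^ 2) 1) =
      (((W + cR p W (Kp q ^ 2) (Kp r ^ 2)) / 2 : ℝ) : ℂ) := by
    rw [v1, kc, ← Complex.ofReal_mul, ← hBB]
    congr 1
    ring
  have n2 : vC p W (Kp q ^ 2) (Kp r ^ 2) 2 * star (vC p W (Kp q ^ 2) (Kp r ^ 2) 2) =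
      ((W - 2 : ℝ) : ℂ) := by
    rw [v2, kc, ← Complex.ofReal_mul, ← pow_two, hT2]
  have n0 : vC p W (Kp q ^ 2) (Kp r ^ 2) 0 * star (vC p W (Kp q ^ 2) (Kp r ^ 2) 0) =
      (((W - cR p W (Kp q ^ 2) (Kp r ^ 2)) / 2 : ℝ) : ℂ) := by
    have e : brJ 1 (vC p W (Kp q ^ 2) (Kp r ^ 2)) (vC p W (Kp q ^ 2) (Kp r ^ 2)) =
        vC p W (Kp q ^ 2) (Kp r ^ 2) 0 * star (vC p W (Kp q ^ 2) (Kp r ^ 2) 0) +
        vC p W (Kp q ^ 2) (Kp r ^ 2) 1 * star (vC p W (Kp q ^ 2) (Kp r ^ 2) 1) -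
        vC p W (Kp q ^ 2) (Kp r ^ 2) 2 * star (vC p W (Kp q ^ 2) (Kp r ^ 2) 2) := by
      simp [brJ]
    rw [e, n1, n2] at two
    have : vC p W (Kp q ^ 2) (Kp r ^ 2) 0 * star (vC p W (Kp q ^ 2) (Kp r ^ 2) 0) =
        2 - (((W + cR p W (Kp q ^ 2) (Kp r ^ 2)) / 2 : ℝ) : ℂ) + ((W - 2 : ℝ) : ℂ) := by
      linear_combination two
    rw [this]
    push_cast
    ring
  have d1 : wC p W (Kp q ^ 2) (Kp r ^ 2) 1 * star (vC p W (Kp q ^ 2) (Kp r ^ 2) 1) +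
      vC p W (Kp q ^ 2) (Kp r ^ 2) 1 * star (wC p W (Kp q ^ 2) (Kp r ^ 2) 1) =
      (((1 + cRd p W (Kp q ^ 2) (Kp r ^ 2)) / 2 : ℝ) : ℂ) := by
    rw [v1, w1, kc, kc, ← Complex.ofReal_mul, ← Complex.ofReal_mul, ← Complex.ofReal_add]
    congr 1
    unfold cBd
    field_simp
    ring
  have d2 : wC p W (Kp q ^ 2) (Kp r ^ 2) 2 * star (vC p W (Kp q ^ 2) (Kp r ^ 2) 2) +
      vC p W (Kp q ^ 2) (Kp r ^ 2) 2 * star (wC p W (Kp q ^ 2) (Kp r ^ 2) 2) = 1 := by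
    rw [v2, w2, kc, kc, ← Complex.ofReal_mul, ← Complex.ofReal_mul, ← Complex.ofReal_add]
    have : 1 / (2 * Real.sqrt (W - 2)) * Real.sqrt (W - 2) +
        Real.sqrt (W - 2) * (1 / (2 * Real.sqrt (W - 2))) = 1 := by
      field_simp
      ring
    rw [this, Complex.ofReal_one]
  have d0 : wC p W (Kp q ^ 2) (Kp r ^ 2) 0 * star (vC p W (Kp q ^ 2) (Kp r ^ 2) 0) +
      vC p W (Kp q ^ 2) (Kp r ^ 2) 0 * star (wC p W (Kp q ^ 2) (Kp r ^ 2) 0) =
      (((1 - cRd p W (Kp q ^ 2) (Kp r ^ 2)) / 2 : ℝ) : ℂ) := by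
    have e : brJ 1 (wC p W (Kp q ^ 2) (Kp r ^ 2)) (vC p W (Kp q ^ 2) (Kp r ^ 2)) =
        wC p W (Kp q ^ 2) (Kp r ^ 2) 0 * star (vC p W (Kp q ^ 2) (Kp r ^ 2) 0) +
        wC p W (Kp q ^ 2) (Kp r ^ 2) 1 * star (vC p W (Kp q ^ 2) (Kp r ^ 2) 1) -
        wC p W (Kp q ^ 2) (Kp r ^ 2) 2 * star (vC p W (Kp q ^ 2) (Kp r ^ 2) 2) := by
      simp [brJ]
    have e2 : brJ 1 (wC p W (Kp q ^ 2) (Kp r ^ 2)) (vC p W (Kp q ^ 2) (Kp r ^ 2)) +
        star (brJ 1 (wC p W (Kp q ^ 2) (Kp r ^ 2)) (vC p W (Kp q ^ 2) (Kp r ^ 2))) = 0 := by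
      apply Complex.ext
      · simp [tan]
      · simp
    rw [e, star_sub, star_add, star_mul', star_mul', star_mul', star_star, star_star, star_star]
      at e2
    have : wC p W (Kp q ^ 2) (Kp r ^ 2) 0 * star (vC p W (Kp q ^ 2) (Kp r ^ 2) 0) +
        vC p W (Kp q ^ 2) (Kp r ^ 2) 0 * star (wC p W (Kp q ^ 2) (Kp r ^ 2) 0) =
        (1 : ℂ) - (((1 + cRd p W (Kp q ^ 2) (Kp r ^ 2)) / 2 : ℝ) : ℂ) := by
      linear_combination e2 - d1 + d2
    rw [this]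
    push_cast
    ring
  have es := ep_sq p
  have ess : star (ep (phi p)) ^ 2 = star (ep (phi p) ^ 2) := by rw [star_pow]
  constructor
  · rw [tr_rB, n0, n1, n2, ess, es]
    apply Complex.ext
    · simp
      unfold SN KN
      rw [hks] at *
      linear_combination hWe + (Kp q * Kp r * x / 2) * (-e0)
    · simp
      rw [hRe]
      unfold KN
      field_simp
      ring
  · refine ⟨Kp p * Real.sin (phi p) * cRd p W (Kp q ^ 2) (Kp r ^ 2), ?_, ?_⟩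
    · rw [tr_rBd, d0, d1, d2, ess, es]
      apply Complex.ext
      · simp
        rw [hks]
        ring
      · simp
        ring
    · have kp0 : Kp p ≠ 0 := by rw [e0]; positivity
      have eR : KN p q r * Real.sqrt (1 - (x / 2) ^ 2) =
          Kp p * Real.sin (phi p) * cR p W (Kp q ^ 2) (Kp r ^ 2) := by
        rw [hRe]
        unfold KN
        field_simp
      have eRd : cR p W (Kp q ^ 2) (Kp r ^ 2) * cRd p W (Kp q ^ 2) (Kp r ^ 2) =
          W - Pool.Agent.Helper6.MONO.W2.cX p W (Kp q ^ 2) (Kp r ^ 2) * (2 / Kp p) := by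
        unfold cRd
        field_simp
      have eX : Kp p ^ 2 * (Pool.Agent.Helper6.MONO.W2.cX p W (Kp q ^ 2) (Kp r ^ 2) * (2 / Kp p)) =
          2 * (2 * W - Kp q ^ 2 - Kp r ^ 2) := by
        unfold Pool.Agent.Helper6.MONO.W2.cX
        field_simp
      have e9 : Kp p ^ 2 * (W - Pool.Agent.Helper6.MONO.W2.cX p W (Kp q ^ 2) (Kp r ^ 2) * (2 / Kp p)) = -(KN p q r * x) := by
        rw [mul_sub, eX]
        have : KN p q r = 2 * Real.cos (phi p) * Kp q * Kp r := by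
          unfold KN
          rw [e0]
        rw [this]
        linear_combination W * hks - 2 * hWe
      rw [eR]
      calc Kp p * Real.sin (phi p) * cR p W (Kp q ^ 2) (Kp r ^ 2) *
          (Kp p * Real.sin (phi p) * cRd p W (Kp q ^ 2) (Kp r ^ 2)) =
          Real.sin (phi p) ^ 2 * (Kp p ^ 2 * (cR p W (Kp q ^ 2) (Kp r ^ 2) *
            cRd p W (Kp q ^ 2) (Kp r ^ 2))) := by ring
        _ = Real.sin (phi p) ^ 2 * -(KN p q r * x) := by rw [eRd, e9]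
        _ = _ := by ring

/-- on `x ≥ x_A` the real part of the trace is larger than `1` -/
theorem Tr_gt {p q r : ℕ} (hp : 4 ≤ p) (hpq : p ≤ q) (hqr : q ≤ r) {x : ℝ}
    (hx : xA p q r ≤ x) : 1 < SN p q r + KN p q r * x / 2 := by
  have hp3 : 3 ≤ p := by omega
  have hq : 3 ≤ q := hp3.trans hpq
  have hr : 3 ≤ r := hq.trans hqr
  obtain ⟨a1, a2⟩ := thr_Kp2 p hp3
  obtain ⟨b1, b2⟩ := thr_Kp2 q hq
  obtain ⟨c1, c2⟩ := thr_Kp2 r hr
  have hbc : Kp q ≤ Kp r := Kp_mono hq hqr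
  have hb4 : Kp 4 ≤ Kp q := Kp_mono (by norm_num) (hp.trans hpq)
  have h4 : Kp 4 ^ 2 = 2 := by
    have e : Kp 4 = Real.sqrt 2 := by
      unfold Kp
      have : Real.cos (Real.pi / ((4 : ℕ) : ℝ)) = Real.sqrt 2 / 2 := by
        have := Real.cos_pi_div_four
        push_cast
        exact this
      rw [this]
      ring
    rw [e, Real.sq_sqrt (by norm_num)]
  have h40 : 1 ≤ Kp 4 := (thr_Kp2 4 (by norm_num)).1
  have hB2 : 2 ≤ Kp q ^ 2 := by
    rw [← h4]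
    exact pow_le_pow_left₀ (by linarith) hb4 2
  have hK : 0 < KN p q r := by
    unfold KN
    positivity
  have e1 : KN p q r * xA p q r = 4 - Kp r ^ 2 - Kp p ^ 2 * Kp q ^ 2 := by
    rw [xA_eq]
    unfold KN at hK ⊢
    field_simp
  have e2 : KN p q r * xA p q r ≤ KN p q r * x := mul_le_mul_of_nonneg_left hx hK.le
  have hA : Kp p ^ 2 < 4 := by nlinarith
  have hB : Kp q ^ 2 < 4 := by nlinarith
  have hBC : Kp q ^ 2 ≤ Kp r ^ 2 := pow_le_pow_left₀ (by linarith) hbc 2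
  have h5 : 0 ≤ (4 - Kp p ^ 2) * (Kp q ^ 2 - 2) := mul_nonneg (by linarith) (by linarith)
  unfold SN
  nlinarith

/-- NB4: THE SPECTRAL DATA AT A POINT. `fB ≥ 0`, `3 (Re T)² < (Im T)²`, `S > 6` -/
theorem nb4 {p q r : ℕ} (hp : 4 ≤ p) (hpq : p ≤ q) (hqr : q ≤ r) {x : ℝ} (hx : xA p q r ≤ x)
    (h1 : -2 < x) (h2 : x < 2) (ht : 0 < tt (phi p) (Kp q) (Kp r) x) (hS : 6 < SN p q r)
    (h3 : 3 * (SN p q r + KN p q r * x / 2) ^ 2 < KN p q r ^ 2 * (1 - x ^ 2 / 4))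
    (hf : 0 ≤ fB p q r x) : ∃ C s h b : ℝ,
    SPR (SN p q r + KN p q r * x / 2) (KN p q r * Real.sqrt (1 - (x / 2) ^ 2)) C s h ∧
    (rB p (vC p (cW p q r x) (Kp q ^ 2) (Kp r ^ 2))).trace =
      ⟨SN p q r + KN p q r * x / 2, KN p q r * Real.sqrt (1 - (x / 2) ^ 2)⟩ ∧
    (rBd p (vC p (cW p q r x) (Kp q ^ 2) (Kp r ^ 2))
        (wC p (cW p q r x) (Kp q ^ 2) (Kp r ^ 2))).trace = ⟨2 * Real.sin (phi p) ^ 2, b⟩ ∧
    0 < hdC C s h (2 * Real.sin (phi p) ^ 2) b ∧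
    SPC (rB p (vC p (cW p q r x) (Kp q ^ 2) (Kp r ^ 2)))
      (rBd p (vC p (cW p q r x) (Kp q ^ 2) (Kp r ^ 2)) (wC p (cW p q r x) (Kp q ^ 2) (Kp r ^ 2)))
      (muC C s) (-star (muC C s) ^ 2) (thC C s h (2 * Real.sin (phi p) ^ 2) b)
      (-2 * thC C s h (2 * Real.sin (phi p) ^ 2) b) h (hdC C s h (2 * Real.sin (phi p) ^ 2) b)
      (Px (rB p (vC p (cW p q r x) (Kp q ^ 2) (Kp r ^ 2))) (muC C s) h (gC C s h))
      (Nx (rB p (vC p (cW p q r x) (Kp q ^ 2) (Kp r ^ 2))) (muC C s) h (gC C s h))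
      (Pd' (rB p (vC p (cW p q r x) (Kp q ^ 2) (Kp r ^ 2)))
        (rBd p (vC p (cW p q r x) (Kp q ^ 2) (Kp r ^ 2)) (wC p (cW p q r x) (Kp q ^ 2) (Kp r ^ 2)))
        (muC C s) (thC C s h (2 * Real.sin (phi p) ^ 2) b) h
        (hdC C s h (2 * Real.sin (phi p) ^ 2) b) (gC C s h)
        (gdC C s h (thC C s h (2 * Real.sin (phi p) ^ 2) b) (hdC C s h (2 * Real.sin (phi p) ^ 2) b)))
      (Nd' (rB p (vC p (cW p q r x) (Kp q ^ 2) (Kp r ^ 2)))
        (rBd p (vC p (cW p q r x) (Kp q ^ 2) (Kp r ^ 2)) (wC p (cW p q r x) (Kp q ^ 2) (Kp r ^ 2)))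
        (muC C s) (thC C s h (2 * Real.sin (phi p) ^ 2) b) h
        (hdC C s h (2 * Real.sin (phi p) ^ 2) b) (gC C s h)
        (gdC C s h (thC C s h (2 * Real.sin (phi p) ^ 2) b) (hdC C s h (2 * Real.sin (phi p) ^ 2) b))) := by
  have hp3 : 3 ≤ p := by omega
  have hq : 3 ≤ q := hp3.trans hpq
  have hr : 3 ≤ r := hq.trans hqr
  have hK : 0 < KN p q r := by
    obtain ⟨a1, _⟩ := thr_Kp2 p hp3
    obtain ⟨b1, _⟩ := thr_Kp2 q hq
    obtain ⟨c1, _⟩ := thr_Kp2 r hr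
    unfold KN
    positivity
  obtain ⟨C, s, h, H⟩ := spr_exists (S := SN p q r) hK h1 h2 (Tr_gt hp hpq hqr hx) h3 hf
  obtain ⟨t1, b, t2, t3⟩ := tr_pt hp3 hq hr h1 h2 ht
  have hW : 2 < cW p q r x := by
    unfold cW
    linarith
  obtain ⟨_, hR2⟩ := cS_pos hp3 hq hr h1 h2
  have two := vC_two hR2 hW.le
  have tan := vC_tan hR2 hW
  obtain ⟨_, hs⟩ := kp_cos hp3
  have hden := H.den.ne'
  obtain ⟨g1, g2⟩ := g_ok (th := thC C s h (2 * Real.sin (phi p) ^ 2) b)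
    (hd := hdC C s h (2 * Real.sin (phi p) ^ 2) b) H.one hden
  refine ⟨C, s, h, b, H, t1, t2, hd_pos H hS (by positivity) t3, ?_⟩
  refine spx_of two tan (muC_mul H.one) ?_ ?_ g1 g2
  · rw [t1, H.re, H.im]
    have := H.one
    apply Complex.ext
    · simp [muC, pow_two]
      linear_combination (-1 : ℝ) * this
    · simp [muC, pow_two]
      ring
  · rw [t2]
    exact td_eq H.one hden

end Pool.Agent.Helper21.NB
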