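import Pool.Agent.C75W.Im

/-!
Spectral data of a `3 x 3` matrix over a commutative ring and over the dual numbers
(MP_c75db0, rotation runs, row NB4).
-/

set_option autoImplicit false
noncomputable section
namespace Pool.Agent.Helper21.NB

open Matrix

section ring

variable {R : Type*} [CommRing R]

/-- the second coefficient of the characteristic polynomial -/
def e2 (M : Matrix (Fin 3) (Fin 3) R) : R :=
  (M 0 0 * M 1 1 - M 0 1 * M 1 0) + (M 0 0 * M 2 2 - M 0 2 * M 2 0) +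
    (M 1 1 * M 2 2 - M 1 2 * M 2 1)

theorem cayley3 (M : Matrix (Fin 3) (Fin 3) R) :
    M * M * M - M.trace • (M * M) + e2 M • M - M.det • (1 : Matrix (Fin 3) (Fin 3) R) = 0 := by
  ext i j
  fin_cases i <;> fin_cases j <;>
    simp [e2, Matrix.mul_apply, Fin.sum_univ_three, Matrix.det_fin_three, Matrix.trace] <;> ring

/-- the quadratic factor at `M` -/
def qM (M : Matrix (Fin 3) (Fin 3) R) (μ h : R) : Matrix (Fin 3) (Fin 3) R :=
  M * M - (2 * μ * h) • M + μ ^ 2 • (1 : Matrix (Fin 3) (Fin 3) R)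
/-- projection on the two dimensional part -/
def pM (M : Matrix (Fin 3) (Fin 3) R) (μ h qi : R) : Matrix (Fin 3) (Fin 3) R :=
  1 - qi • qM M μ h
def nM' (M : Matrix (Fin 3) (Fin 3) R) (μ μi h qi : R) : Matrix (Fin 3) (Fin 3) R :=
  μi • (M * pM M μ h qi) - h • pM M μ h qi

variable {M : Matrix (Fin 3) (Fin 3) R} {μ μi ν h qi : R}

theorem fac3 (ht : M.trace = 2 * μ * h + ν) (he : e2 M = 2 * μ * h * ν + μ ^ 2)
    (hd : M.det = μ ^ 2 * ν) : M * qM M μ h = ν • qM M μ h := by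
  have h0 := cayley3 M
  rw [ht, he, hd] at h0
  have h1 : M * qM M μ h - ν • qM M μ h = 0 := by
    rw [← h0]
    unfold qM
    simp only [mul_add, mul_sub, Matrix.mul_smul, mul_one, smul_add, smul_sub, smul_smul, add_smul,
      Matrix.mul_assoc]
    module
  exact sub_eq_zero.1 h1

theorem comm_qM (M : Matrix (Fin 3) (Fin 3) R) (μ h : R) : M * qM M μ h = qM M μ h * M := by
  unfold qM
  simp only [mul_add, mul_sub, add_mul, sub_mul, Matrix.mul_smul, Matrix.smul_mul, mul_one, one_mul,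
    Matrix.mul_assoc]

theorem qM_sq (hf : M * qM M μ h = ν • qM M μ h) :
    qM M μ h * qM M μ h = (ν ^ 2 - 2 * μ * h * ν + μ ^ 2) • qM M μ h := by
  have h2 : M * M * qM M μ h = ν ^ 2 • qM M μ h := by
    rw [Matrix.mul_assoc, hf, Matrix.mul_smul, hf, smul_smul, pow_two]
  conv_lhs => rw [show qM M μ h = M * M - (2 * μ * h) • M + μ ^ 2 • (1 : Matrix (Fin 3) (Fin 3) R)
    from rfl]
  rw [add_mul, sub_mul, Matrix.smul_mul, Matrix.smul_mul, one_mul]
  have e : (M * M - (2 * μ * h) • M + μ ^ 2 • (1 : Matrix (Fin 3) (Fin 3) R)) = qM M μ h := rfl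
  rw [e, h2, hf, smul_smul]
  module

theorem comm_pM (M : Matrix (Fin 3) (Fin 3) R) (μ h qi : R) : M * pM M μ h qi = pM M μ h qi * M := by
  unfold pM
  rw [mul_sub, sub_mul, Matrix.mul_smul, Matrix.smul_mul, mul_one, one_mul, comm_qM]

theorem pM_sq (hf : M * qM M μ h = ν • qM M μ h) (hq : (ν ^ 2 - 2 * μ * h * ν + μ ^ 2) * qi = 1) :
    pM M μ h qi * pM M μ h qi = pM M μ h qi := by
  have e : qi * qi * (ν ^ 2 - 2 * μ * h * ν + μ ^ 2) = qi := by
    linear_combination qi * hq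
  unfold pM
  simp only [sub_mul, mul_sub, one_mul, mul_one, Matrix.smul_mul, Matrix.mul_smul, qM_sq hf,
    smul_smul]
  rw [← mul_assoc qi qi, e]
  abel

theorem qM_pM (hf : M * qM M μ h = ν • qM M μ h) (hq : (ν ^ 2 - 2 * μ * h * ν + μ ^ 2) * qi = 1) :
    qM M μ h * pM M μ h qi = 0 := by
  unfold pM
  rw [mul_sub, mul_one, Matrix.mul_smul, qM_sq hf, smul_smul]
  have e : qi * (ν ^ 2 - 2 * μ * h * ν + μ ^ 2) = 1 := by rw [mul_comm]; exact hq
  rw [e, one_smul, sub_self]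

theorem nM_pM (hf : M * qM M μ h = ν • qM M μ h) (hq : (ν ^ 2 - 2 * μ * h * ν + μ ^ 2) * qi = 1) :
    nM' M μ μi h qi * pM M μ h qi = nM' M μ μi h qi := by
  unfold nM'
  rw [sub_mul, Matrix.smul_mul, Matrix.smul_mul, Matrix.mul_assoc, pM_sq hf hq]

theorem pM_nM (hf : M * qM M μ h = ν • qM M μ h) (hq : (ν ^ 2 - 2 * μ * h * ν + μ ^ 2) * qi = 1) :
    pM M μ h qi * nM' M μ μi h qi = nM' M μ μi h qi := by
  unfold nM'
  rw [mul_sub, Matrix.mul_smul, Matrix.mul_smul, ← Matrix.mul_assoc, ← comm_pM, Matrix.mul_assoc,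
    pM_sq hf hq]

theorem nM_sq (hf : M * qM M μ h = ν • qM M μ h) (hq : (ν ^ 2 - 2 * μ * h * ν + μ ^ 2) * qi = 1)
    (hm : μ * μi = 1) :
    nM' M μ μi h qi * nM' M μ μi h qi = (h ^ 2 - 1) • pM M μ h qi := by
  have e1 : nM' M μ μi h qi * nM' M μ μi h qi =
      (μi ^ 2 • (M * M) - (2 * μi * h) • M + h ^ 2 • (1 : Matrix (Fin 3) (Fin 3) R)) *
        pM M μ h qi := by
    have a : nM' M μ μi h qi = (μi • M - h • (1 : Matrix (Fin 3) (Fin 3) R)) * pM M μ h qi := by
      unfold nM'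
      rw [sub_mul, Matrix.smul_mul, Matrix.smul_mul, one_mul]
    have b : nM' M μ μi h qi = pM M μ h qi * (μi • M - h • (1 : Matrix (Fin 3) (Fin 3) R)) := by
      unfold nM'
      rw [mul_sub, Matrix.mul_smul, Matrix.mul_smul, mul_one, comm_pM]
    have c : nM' M μ μi h qi * nM' M μ μi h qi =
        (μi • M - h • (1 : Matrix (Fin 3) (Fin 3) R)) * (pM M μ h qi * pM M μ h qi) *
          (μi • M - h • (1 : Matrix (Fin 3) (Fin 3) R)) := by
      conv_lhs => rw [b]
      rw [← b]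
      conv_lhs =>
        lhs
        rw [a]
      conv_lhs =>
        rhs
        rw [b]
      simp only [Matrix.mul_assoc]
    rw [c, pM_sq hf hq, Matrix.mul_assoc, ← b, a, ← Matrix.mul_assoc]
    congr 1
    simp only [mul_sub, sub_mul, Matrix.smul_mul, Matrix.mul_smul, mul_one, one_mul, smul_smul]
    module
  rw [e1]
  have e2' : (μi ^ 2 • (M * M) - (2 * μi * h) • M + h ^ 2 • (1 : Matrix (Fin 3) (Fin 3) R)) =
      μi ^ 2 • qM M μ h + (h ^ 2 - 1) • (1 : Matrix (Fin 3) (Fin 3) R) := by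
    unfold qM
    rw [smul_add, smul_sub, smul_smul, smul_smul]
    have a1 : μi ^ 2 * (2 * μ * h) = 2 * μi * h := by linear_combination (2 * μi * h) * hm
    have a2 : μi ^ 2 * μ ^ 2 = 1 := by linear_combination (μ * μi + 1) * hm
    rw [a1, a2, sub_smul, one_smul]
    abel
  rw [e2', add_mul, Matrix.smul_mul, Matrix.smul_mul, one_mul, qM_pM hf hq, smul_zero, zero_add]

theorem M_dec (hf : M * qM M μ h = ν • qM M μ h) (hm : μ * μi = 1) :
    M = μ • (nM' M μ μi h qi + h • pM M μ h qi) + ν • (1 - pM M μ h qi) := by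
  have e1 : μ • (nM' M μ μi h qi + h • pM M μ h qi) = M * pM M μ h qi := by
    unfold nM'
    rw [sub_add_cancel, smul_smul, hm, one_smul]
  have e2' : (1 - pM M μ h qi) = qi • qM M μ h := by
    unfold pM
    rw [sub_sub_cancel]
  rw [e1, e2', smul_smul, mul_comm ν qi, ← smul_smul, ← hf]
  unfold pM
  rw [mul_sub, mul_one, Matrix.mul_smul, sub_add_cancel]

end ring

end Pool.Agent.Helper21.NB
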