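import Pool.Agent.Helper21.CW.SPA

/-!
Spectral data of a `3 x 3` matrix `(1 - V ⊗ W) diag (s, s', 1)` over the dual numbers
(MP_c75db0, rotation runs, row NB4).
-/

set_option autoImplicit false
noncomputable section
namespace Pool.Agent.Helper21.NB

open Matrix TrivSqZeroExt

section ring

variable {R : Type*} [CommRing R]

/-- the matrix -/
def mVW (V W : Fin 3 → R) (s s' : R) : Matrix (Fin 3) (Fin 3) R :=
  (1 - Matrix.of fun i j => V i * W j) * Matrix.diagonal ![s, s', 1]

theorem mVW_tr (V W : Fin 3 → R) (s s' : R) : (mVW V W s s').trace =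
    s * (1 - V 0 * W 0) + s' * (1 - V 1 * W 1) + (1 - V 2 * W 2) := by
  simp [mVW, Matrix.trace, Fin.sum_univ_three]
  ring

theorem mVW_e2 {V W : Fin 3 → R} {s s' : R} (hs : s * s' = 1)
    (hv : V 0 * W 0 + V 1 * W 1 + V 2 * W 2 = 2) : e2 (mVW V W s s') =
    -(s' * (1 - V 0 * W 0) + s * (1 - V 1 * W 1) + (1 - V 2 * W 2)) := by
  simp [mVW, e2]
  linear_combination (1 - V 0 * W 0 - V 1 * W 1) * hs + (-s - s' - 1) * hv

theorem mVW_det {V W : Fin 3 → R} {s s' : R} (hs : s * s' = 1)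
    (hv : V 0 * W 0 + V 1 * W 1 + V 2 * W 2 = 2) : (mVW V W s s').det = -1 := by
  have e1 : (Matrix.diagonal ![s, s', 1]).det = s * s' := by
    rw [Matrix.det_diagonal]
    simp [Fin.prod_univ_three]
  have e2 : (1 - Matrix.of fun i j => V i * W j : Matrix (Fin 3) (Fin 3) R).det =
      1 - V 0 * W 0 - V 1 * W 1 - V 2 * W 2 := by
    simp [Matrix.det_fin_three]
    ring
  unfold mVW
  rw [Matrix.det_mul, e1, e2]
  linear_combination (1 - V 0 * W 0 - V 1 * W 1 - V 2 * W 2) * hs - hv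

end ring

/-! ### dual numbers -/

/-- the matrix of dual numbers with the parts `A`, `B` -/
def dm (A B : Matrix (Fin 3) (Fin 3) ℂ) : Matrix (Fin 3) (Fin 3) (DualNumber ℂ) :=
  Matrix.of fun i j => (inl (A i j) + inr (B i j) : DualNumber ℂ)
/-- first and second part -/
def pf (M : Matrix (Fin 3) (Fin 3) (DualNumber ℂ)) : Matrix (Fin 3) (Fin 3) ℂ :=
  Matrix.of fun i j => (M i j).fst
def ps (M : Matrix (Fin 3) (Fin 3) (DualNumber ℂ)) : Matrix (Fin 3) (Fin 3) ℂ :=
  Matrix.of fun i j => (M i j).snd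

theorem pf_dm (A B : Matrix (Fin 3) (Fin 3) ℂ) : pf (dm A B) = A := by
  ext i j
  simp [pf, dm]
theorem ps_dm (A B : Matrix (Fin 3) (Fin 3) ℂ) : ps (dm A B) = B := by
  ext i j
  simp [ps, dm]

variable (M N : Matrix (Fin 3) (Fin 3) (DualNumber ℂ)) (c : DualNumber ℂ)

theorem pf_mul : pf (M * N) = pf M * pf N := by
  ext i j
  simp [pf, Matrix.mul_apply, Fin.sum_univ_three]
theorem ps_mul : ps (M * N) = ps M * pf N + pf M * ps N := by
  ext i j
  simp [pf, ps, Matrix.mul_apply, Fin.sum_univ_three]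
  ring
theorem pf_add : pf (M + N) = pf M + pf N := by
  ext i j
  simp [pf]
theorem ps_add : ps (M + N) = ps M + ps N := by
  ext i j
  simp [ps]
theorem pf_sub : pf (M - N) = pf M - pf N := by
  ext i j
  simp [pf]
theorem ps_sub : ps (M - N) = ps M - ps N := by
  ext i j
  simp [ps]
theorem pf_smul : pf (c • M) = c.fst • pf M := by
  ext i j
  simp [pf]
theorem ps_smul : ps (c • M) = c.fst • ps M + c.snd • pf M := by
  ext i j
  simp [pf, ps]
theorem pf_one : pf 1 = 1 := by
  ext i j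
  simp only [pf, Matrix.of_apply, Matrix.one_apply]
  split_ifs <;> simp
theorem ps_one : ps 1 = 0 := by
  ext i j
  simp only [ps, Matrix.of_apply, Matrix.one_apply, Matrix.zero_apply]
  split_ifs <;> simp

end Pool.Agent.Helper21.NB
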