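import Pool.Agent.Helper21.CW.SPB
import Pool.Agent.Helper12.CW.NF5
import Pool.Agent.Helper95.CW.NB1

/-!
Spectral data of the rotation block of the star frame (MP_c75db0, row NB4).
-/

set_option autoImplicit false
noncomputable section
namespace Pool.Agent.Helper21.NB

open Matrix TrivSqZeroExt
open Pool.Agent.Helper6.MONO.W2
open Pool.Agent.Helper6.MONO

/-- the rotation block -/
def rB (p : ℕ) (v : V3) : Mt := rfJ 1 v * sDm (phi p) false 2
def rBd (p : ℕ) (v vd : V3) : Mt := rfd 1 0 v vd * sDm (phi p) false 2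

/-- dual vectors -/
def dV (v vd : V3) : Fin 3 → DualNumber ℂ := fun i => inl (v i) + inr (vd i)
def dW (v vd : V3) : Fin 3 → DualNumber ℂ :=
  ![inl (star (v 0)) + inr (star (vd 0)), inl (star (v 1)) + inr (star (vd 1)),
    -(inl (star (v 2)) + inr (star (vd 2)))]
def dS (z : ℂ) : DualNumber ℂ := inl z

theorem sDm_diag (φ : ℝ) : sDm φ false 2 = Matrix.diagonal ![ep φ ^ 2, star (ep φ) ^ 2, 1] := by
  ext i j
  fin_cases i <;> fin_cases j <;> simp [sDm]

theorem dm_rB (p : ℕ) (v vd : V3) : dm (rB p v) (rBd p v vd) =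
    mVW (dV v vd) (dW v vd) (dS (ep (phi p) ^ 2)) (dS (star (ep (phi p)) ^ 2)) := by
  unfold rB rBd
  rw [sDm_diag]
  unfold mVW dm
  ext i j
  all_goals
    fin_cases i <;> fin_cases j <;>
      simp [rfJ, rfd, dV, dW, dS, Matrix.mul_apply, Matrix.one_apply, Matrix.diagonal_apply] <;>
      ring

theorem dVW {v vd : V3} (h : brJ 1 v v = 2) (h' : (brJ 1 vd v).re = 0) :
    dV v vd 0 * dW v vd 0 + dV v vd 1 * dW v vd 1 + dV v vd 2 * dW v vd 2 = 2 := by
  have e1 : v 0 * star (v 0) + v 1 * star (v 1) - v 2 * star (v 2) = 2 := by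
    rw [← h]
    simp [brJ]
  have e2 : (vd 0 * star (v 0) + vd 1 * star (v 1) - vd 2 * star (v 2)) +
      star (vd 0 * star (v 0) + vd 1 * star (v 1) - vd 2 * star (v 2)) = 0 := by
    have e3 : brJ 1 vd v = vd 0 * star (v 0) + vd 1 * star (v 1) - vd 2 * star (v 2) := by
      simp [brJ]
    rw [← e3]
    apply Complex.ext
    · simp [h']
    · simp
  apply TrivSqZeroExt.ext
  · have : (2 : DualNumber ℂ).fst = 2 := rfl
    rw [this, ← e1]
    simp [dV, dW]
    ring
  · have : (2 : DualNumber ℂ).snd = 0 := rfl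
    rw [this, ← e2]
    simp [dV, dW]
    ring

/-- conjugation of both parts -/
def dstar (x : DualNumber ℂ) : DualNumber ℂ := inl (star x.fst) + inr (star x.snd)

theorem dstar_fst (x : DualNumber ℂ) : (dstar x).fst = star x.fst := by simp [dstar]
theorem dstar_snd (x : DualNumber ℂ) : (dstar x).snd = star x.snd := by simp [dstar]
theorem dstar_add (x y : DualNumber ℂ) : dstar (x + y) = dstar x + dstar y := by
  apply TrivSqZeroExt.ext <;> simp [dstar]
theorem dstar_sub (x y : DualNumber ℂ) : dstar (x - y) = dstar x - dstar y := by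
  apply TrivSqZeroExt.ext <;> simp [dstar]
theorem dstar_mul (x y : DualNumber ℂ) : dstar (x * y) = dstar x * dstar y := by
  apply TrivSqZeroExt.ext
  · simp [dstar]
  · simp [dstar]
theorem dstar_one : dstar 1 = 1 := by
  apply TrivSqZeroExt.ext <;> simp [dstar]

theorem dVW_star (v vd : V3) (i : Fin 3) : dstar (dV v vd i * dW v vd i) = dV v vd i * dW v vd i := by
  apply TrivSqZeroExt.ext
  · fin_cases i <;> simp [dstar, dV, dW] <;> ring
  · fin_cases i <;> simp [dstar, dV, dW] <;> ring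

/-- the trace of the conjugate -/
theorem tr_star (v vd : V3) (s : ℂ) :
    dS (star s) * (1 - dV v vd 0 * dW v vd 0) + dS s * (1 - dV v vd 1 * dW v vd 1) +
      (1 - dV v vd 2 * dW v vd 2) =
    dstar (dS s * (1 - dV v vd 0 * dW v vd 0) + dS (star s) * (1 - dV v vd 1 * dW v vd 1) +
      (1 - dV v vd 2 * dW v vd 2)) := by
  have e1 : dstar (dS s) = dS (star s) := by
    apply TrivSqZeroExt.ext <;> simp [dstar, dS]
  have e2 : dstar (dS (star s)) = dS s := by
    apply TrivSqZeroExt.ext <;> simp [dstar, dS]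
  rw [dstar_add, dstar_add, dstar_mul, dstar_mul, dstar_sub, dstar_sub, dstar_sub, dstar_one,
    dVW_star, dVW_star, dVW_star, e1, e2]

theorem dm_trace (A B : Mt) : (dm A B).trace = inl A.trace + inr B.trace := by
  apply TrivSqZeroExt.ext <;> simp [dm, Matrix.trace, Fin.sum_univ_three]

/-! ### explicit data -/

/-- the quadratic factor at `B` -/
def Qx (B : Mt) (μ : ℂ) (h : ℝ) : Mt :=
  B * B - (2 * μ * (h : ℂ)) • B + μ ^ 2 • (1 : Mt)
/-- its derivative -/
def Qd (B Bd : Mt) (μ : ℂ) (th h hd : ℝ) : Mt :=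
  (Bd * B + B * Bd) - ((2 * μ * (h : ℂ)) • Bd +
    (2 * μ * (hd : ℂ) + 2 * (Complex.I * (th : ℂ) * μ) * (h : ℂ)) • B) +
    (2 * μ * (Complex.I * (th : ℂ) * μ)) • (1 : Mt)
def Px (B : Mt) (μ : ℂ) (h : ℝ) (g : ℂ) : Mt := 1 - g • Qx B μ h
def Pd' (B Bd : Mt) (μ : ℂ) (th h hd : ℝ) (g gd : ℂ) : Mt :=
  -(g • Qd B Bd μ th h hd + gd • Qx B μ h)
def Nx (B : Mt) (μ : ℂ) (h : ℝ) (g : ℂ) : Mt :=
  star μ • (B * Px B μ h g) - (h : ℂ) • Px B μ h g
def Nd' (B Bd : Mt) (μ : ℂ) (th h hd : ℝ) (g gd : ℂ) : Mt :=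
  (star μ • (Bd * Px B μ h g + B * Pd' B Bd μ th h hd g gd) +
    (-(Complex.I * (th : ℂ) * star μ)) • (B * Px B μ h g)) -
    ((h : ℂ) • Pd' B Bd μ th h hd g gd + (hd : ℂ) • Px B μ h g)

/-- EXISTENCE OF THE SPECTRAL DATA from the trace and its derivative; `g` is the inverse of
`conj μ ^ 4 + 2 h conj μ + μ ^ 2`, `gd` its derivative -/
theorem spx_of {p : ℕ} {v vd : V3} (h2 : brJ 1 v v = 2) (h2' : (brJ 1 vd v).re = 0) {μ : ℂ}
    {th h hd : ℝ} (hμ : μ * star μ = 1) (hT : (rB p v).trace = 2 * μ * (h : ℂ) - star μ ^ 2)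
    (hTd : (rBd p v vd).trace = 2 * (Complex.I * (th : ℂ) * μ) * (h : ℂ) + 2 * μ * (hd : ℂ) +
      2 * (Complex.I * (th : ℂ) * star μ ^ 2)) {g gd : ℂ}
    (hg : (star μ ^ 4 + 2 * star μ * (h : ℂ) + μ ^ 2) * g = 1)
    (hgd : (star μ ^ 4 + 2 * star μ * (h : ℂ) + μ ^ 2) * gd +
      (-(4 * (Complex.I * (th : ℂ)) * star μ ^ 4) - 2 * (Complex.I * (th : ℂ)) * star μ * (h : ℂ) +
        2 * star μ * (hd : ℂ) + 2 * (Complex.I * (th : ℂ)) * μ ^ 2) * g = 0) :
    SPC (rB p v) (rBd p v vd) μ (-star μ ^ 2) th (-2 * th) h hd (Px (rB p v) μ h g)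
      (Nx (rB p v) μ h g) (Pd' (rB p v) (rBd p v vd) μ th h hd g gd)
      (Nd' (rB p v) (rBd p v vd) μ th h hd g gd) := by
  set M := dm (rB p v) (rBd p v vd) with hM
  set m : DualNumber ℂ := inl μ + inr (Complex.I * (th : ℂ) * μ) with hm
  set mi : DualNumber ℂ := inl (star μ) + inr (-(Complex.I * (th : ℂ) * star μ)) with hmi
  set H : DualNumber ℂ := inl (h : ℂ) + inr (hd : ℂ) with hH
  have m1 : m * mi = 1 := by
    apply TrivSqZeroExt.ext
    · simp only [hm, hmi, fst_add, fst_mul, fst_inl, fst_inr, add_zero, fst_one]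
      exact hμ
    · simp only [hm, hmi, fst_add, snd_add, DualNumber.snd_mul, fst_inl, fst_inr, snd_inl, snd_inr,
        add_zero, zero_add, snd_one]
      ring
  have hms : dstar m = mi := by
    apply TrivSqZeroExt.ext <;> simp [dstar, hm, hmi]
  have hHs : dstar H = H := by
    apply TrivSqZeroExt.ext
    · simp only [dstar, hH, fst_add, snd_add, fst_inl, fst_inr, snd_inl, snd_inr, add_zero, zero_add]
      exact Complex.conj_ofReal h
    · simp only [dstar, hH, fst_add, snd_add, fst_inl, fst_inr, snd_inl, snd_inr, add_zero, zero_add]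
      exact Complex.conj_ofReal hd
  have f2 : (2 : DualNumber ℂ).fst = 2 := rfl
  have s2 : (2 : DualNumber ℂ).snd = 0 := rfl
  have hmis : dstar mi = m := by
    apply TrivSqZeroExt.ext <;> simp [dstar, hm, hmi]
  have h2s : dstar 2 = 2 := by
    have : (2 : DualNumber ℂ) = 1 + 1 := by norm_num
    rw [this, dstar_add, dstar_one]
  -- the trace
  have ht : M.trace = 2 * m * H + (-mi ^ 2) := by
    rw [hM, dm_trace, hT, hTd]
    apply TrivSqZeroExt.ext
    · simp only [hm, hmi, hH, pow_two, fst_add, fst_mul, fst_neg, fst_inl, fst_inr, add_zero, f2]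
      ring
    · simp only [hm, hmi, hH, pow_two, fst_add, snd_add, fst_mul, DualNumber.snd_mul, snd_neg,
        fst_inl, fst_inr, snd_inl, snd_inr, add_zero, zero_add, f2, s2]
      ring
  have hmv : M = mVW (dV v vd) (dW v vd) (dS (ep (phi p) ^ 2)) (dS (star (ep (phi p)) ^ 2)) :=
    dm_rB p v vd
  have hss : dS (ep (phi p) ^ 2) * dS (star (ep (phi p)) ^ 2) = 1 := by
    have e := ep_mul (phi p)
    apply TrivSqZeroExt.ext
    · simp only [dS, fst_mul, fst_inl, fst_one]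
      rw [← mul_pow, e, one_pow]
    · simp [dS]
  have hsv := dVW h2 h2'
  have hst : star (ep (phi p)) ^ 2 = star (ep (phi p) ^ 2) := by rw [star_pow]
  have he : e2 M = 2 * m * H * (-mi ^ 2) + m ^ 2 := by
    rw [hmv, mVW_e2 hss hsv]
    have t1 := tr_star v vd (ep (phi p) ^ 2)
    rw [← hst] at t1
    rw [t1, ← mVW_tr, ← hmv, ht, dstar_add, dstar_mul, dstar_mul, h2s, hms, hHs]
    have : dstar (-mi ^ 2) = -m ^ 2 := by
      have e0 : dstar (-mi ^ 2) = -(dstar mi * dstar mi) := by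
        rw [← dstar_mul]
        apply TrivSqZeroExt.ext <;> simp [dstar, pow_two]
      rw [e0, hmis, pow_two]
    rw [this]
    clear_value m mi H
    linear_combination (2 * H * mi) * m1
  have hd' : M.det = m ^ 2 * (-mi ^ 2) := by
    rw [hmv, mVW_det hss hsv]
    linear_combination (m * mi + 1) * m1
  have hf := fac3 ht he hd'
  set qi : DualNumber ℂ := inl g + inr gd with hqid
  have hqi : ((-mi ^ 2) ^ 2 - 2 * m * H * (-mi ^ 2) + m ^ 2) * qi = 1 := by
    have e : (-mi ^ 2) ^ 2 - 2 * m * H * (-mi ^ 2) + m ^ 2 = mi ^ 4 + 2 * mi * H + m ^ 2 := by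
      clear_value m mi H
      linear_combination (2 * H * mi) * m1
    rw [e]
    apply TrivSqZeroExt.ext
    · simp only [hm, hmi, hH, hqid, fst_add, fst_mul, fst_pow, fst_inl, fst_inr, add_zero, f2,
        fst_one]
      exact hg
    · have e4 : mi ^ 4 = mi * mi * (mi * mi) := by ring
      have e2' : m ^ 2 = m * m := by ring
      rw [e4, e2']
      simp only [hm, hmi, hH, hqid, fst_add, snd_add, fst_mul, DualNumber.snd_mul, fst_inl, fst_inr,
        snd_inl, snd_inr, add_zero, zero_add, f2, s2, snd_one]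
      refine Eq.trans ?_ hgd
      ring
  have r1 := pM_sq hf hqi
  have r2 := nM_pM (μi := mi) hf hqi
  have r3 := pM_nM (μi := mi) hf hqi
  have r4 := nM_sq (μi := mi) hf hqi m1
  have r5 := M_dec (qi := qi) hf m1
  have mf : m.fst = μ := by simp [hm]
  have ms : m.snd = Complex.I * (th : ℂ) * μ := by simp [hm]
  have Hf : H.fst = (h : ℂ) := by simp only [hH, fst_add, fst_inl, fst_inr, add_zero]
  have Hs : H.snd = (hd : ℂ) := by simp only [hH, snd_add, snd_inl, snd_inr, zero_add]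
  have nf : (-mi ^ 2).fst = -star μ ^ 2 := by simp [hmi]
  have ns' : (-mi ^ 2).snd = Complex.I * ((-2 * th : ℝ) : ℂ) * -star μ ^ 2 := by
    simp [hmi, pow_two]
    ring
  have h1f : (H ^ 2 - 1).fst = ((h ^ 2 - 1 : ℝ) : ℂ) := by
    rw [fst_sub, fst_pow, Hf, fst_one]
    push_cast
    ring
  have h1s : (H ^ 2 - 1).snd = ((2 * h * hd : ℝ) : ℂ) := by
    rw [snd_sub, pow_two, DualNumber.snd_mul, Hf, Hs, snd_one]
    push_cast
    ring
  have mif : mi.fst = star μ := by simp only [hmi, fst_add, fst_inl, fst_inr, add_zero]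
  have mis : mi.snd = -(Complex.I * (th : ℂ) * star μ) := by
    simp only [hmi, snd_add, snd_inl, snd_inr, zero_add]
  have gf : qi.fst = g := by simp only [hqid, fst_add, fst_inl, fst_inr, add_zero]
  have gs : qi.snd = gd := by simp only [hqid, snd_add, snd_inl, snd_inr, zero_add]
  have Mf : pf M = rB p v := by rw [hM, pf_dm]
  have Ms : ps M = rBd p v vd := by rw [hM, ps_dm]
  have m2f : (2 * m * H).fst = 2 * μ * (h : ℂ) := by
    rw [fst_mul, fst_mul, f2, mf, Hf]
  have m2s : (2 * m * H).snd = 2 * μ * (hd : ℂ) + 2 * (Complex.I * (th : ℂ) * μ) * (h : ℂ) := by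
    rw [DualNumber.snd_mul, fst_mul, DualNumber.snd_mul, f2, s2, mf, ms, Hf, Hs]
    ring
  have mqf : (m ^ 2).fst = μ ^ 2 := by rw [fst_pow, mf]
  have mqs : (m ^ 2).snd = 2 * μ * (Complex.I * (th : ℂ) * μ) := by
    rw [pow_two, DualNumber.snd_mul, mf, ms]
    ring
  have qf : pf (qM M m H) = Qx (rB p v) μ h := by
    unfold qM Qx
    rw [pf_add, pf_sub, pf_mul, pf_smul, pf_smul, pf_one, Mf, m2f, mqf]
  have qs : ps (qM M m H) = Qd (rB p v) (rBd p v vd) μ th h hd := by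
    unfold qM Qd
    rw [ps_add, ps_sub, ps_mul, ps_smul, ps_smul, ps_one, pf_one, Mf, Ms, m2f, m2s, mqf, mqs,
      smul_zero, zero_add]
  have Pf : pf (pM M m H qi) = Px (rB p v) μ h g := by
    unfold pM Px
    rw [pf_sub, pf_one, pf_smul, qf, gf]
  have Ps : ps (pM M m H qi) = Pd' (rB p v) (rBd p v vd) μ th h hd g gd := by
    unfold pM Pd'
    rw [ps_sub, ps_one, ps_smul, qf, qs, gf, gs, zero_sub]
  have Nf : pf (nM' M m mi H qi) = Nx (rB p v) μ h g := by
    unfold nM' Nx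
    rw [pf_sub, pf_smul, pf_smul, pf_mul, Pf, Mf, mif, Hf]
  have Ns : ps (nM' M m mi H qi) = Nd' (rB p v) (rBd p v vd) μ th h hd g gd := by
    unfold nM' Nd'
    rw [ps_sub, ps_smul, ps_smul, ps_mul, pf_mul, Pf, Ps, Mf, Ms, mif, mis, Hf, Hs]
  rw [← Pf, ← Ps, ← Nf, ← Ns]
  refine ⟨?_, ?_, ?_, ?_, ?_, ?_, ?_, ?_, ?_, ?_⟩
  · rw [← pf_mul, r1]
  · rw [← pf_mul, r2]
  · rw [← pf_mul, r3]
  · rw [← pf_mul, r4, pf_smul, h1f]
  · rw [← ps_mul, r1]
  · rw [← ps_mul, r2]
  · rw [← ps_mul, r3]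
  · rw [← ps_mul, r4, ps_smul, h1f, h1s, add_comm]
  · have e := congrArg pf r5
    rw [hM, pf_dm, pf_add, pf_smul, pf_smul, pf_add, pf_smul, pf_sub, pf_one, mf, Hf, nf] at e
    exact e
  · have e := congrArg ps r5
    rw [hM, ps_dm, ps_add, ps_smul, ps_smul, ps_add, pf_add, pf_smul, ps_smul, ps_sub, pf_sub,
      pf_one, ps_one, mf, ms, Hf, Hs, nf, ns'] at e
    rw [e, zero_sub]
    module

end Pool.Agent.Helper21.NB
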